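import Mathlib
import Pool.Agent.H925R3.DC.Stubs

/-! CNT: the supersingular count. -/

set_option autoImplicit false

namespace Pool.Agent.H35R6.DCCNT

open Finset

theorem cnt_cube {p : ℕ} [Fact p.Prime] (h3 : 3 ∣ p + 1) :
    Function.Bijective (fun x : ZMod p => x ^ 3) := by
  have hsurj : Function.Surjective (fun x : ZMod p => x ^ 3) := by
    intro t
    have hp := (Fact.out : p.Prime).two_le
    obtain ⟨k, hk⟩ := h3
    refine ⟨t ^ (2 * k - 1), ?_⟩
    show (t ^ (2 * k - 1)) ^ 3 = t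
    rw [← pow_mul]
    have e : (2 * k - 1) * 3 = p + (p - 1) := by omega
    rw [e, pow_add, ZMod.pow_card, ← pow_succ']
    have e2 : p - 1 + 1 = p := by omega
    rw [e2, ZMod.pow_card]
  exact ⟨Finite.injective_iff_surjective.2 hsurj, hsurj⟩

theorem cnt_a {p : ℕ} [Fact p.Prime] (h3 : 3 ∣ p + 1) (b : ZMod p) :
    Nat.card {z : ZMod p × ZMod p // z.2 ^ 2 = z.1 ^ 3 + b} = p := by
  have hb := cnt_cube h3
  have h : Function.Bijective
      (fun z : {z : ZMod p × ZMod p // z.2 ^ 2 = z.1 ^ 3 + b} => z.1.2) := by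
    constructor
    · rintro ⟨⟨x, y⟩, hz⟩ ⟨⟨x', y'⟩, hz'⟩ h
      simp only at hz hz' h
      subst h
      have h1 : x ^ 3 = x' ^ 3 := by
        rw [hz] at hz'
        exact add_right_cancel hz'
      have h2 : x = x' := hb.1 h1
      subst h2
      rfl
    · intro y
      obtain ⟨x, hx⟩ := hb.2 (y ^ 2 - b)
      have hx' : x ^ 3 = y ^ 2 - b := hx
      exact ⟨⟨(x, y), by rw [hx']; ring⟩, rfl⟩
  rw [Nat.card_congr (Equiv.ofBijective _ h), Nat.card_zmod]

theorem cnt_b {p : ℕ} [Fact p.Prime] (h4 : 4 ∣ p + 1) (a : ZMod p) :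
    Nat.card {z : ZMod p × ZMod p // z.2 ^ 2 = z.1 ^ 3 + a * z.1} = p := by
  classical
  have hp := (Fact.out : p.Prime).two_le
  have hp2 : ringChar (ZMod p) ≠ 2 := by
    rw [ZMod.ringChar_zmod_n]
    omega
  set g : ZMod p → ZMod p := fun x => x ^ 3 + a * x with hg
  have e1 : Nat.card {z : ZMod p × ZMod p // z.2 ^ 2 = z.1 ^ 3 + a * z.1} =
      ∑ x : ZMod p, Nat.card {y : ZMod p // y ^ 2 = g x} := by
    rw [← Nat.card_sigma]
    exact Nat.card_congr (Equiv.subtypeProdEquivSigmaSubtype fun x y => y ^ 2 = g x)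
  have e2 : ∀ t : ZMod p, (Nat.card {y : ZMod p // y ^ 2 = t} : ℤ) =
      quadraticChar (ZMod p) t + 1 := by
    intro t
    rw [← quadraticChar_card_sqrts hp2 t, Set.toFinset_card, Nat.card_eq_fintype_card]
    rfl
  have e3 : ∑ x : ZMod p, quadraticChar (ZMod p) (g x) = 0 := by
    have h1 : ∑ x : ZMod p, quadraticChar (ZMod p) (g x) =
        ∑ x : ZMod p, quadraticChar (ZMod p) (g (-x)) :=
      (Equiv.sum_comp (Equiv.neg (ZMod p)) fun x => quadraticChar (ZMod p) (g x)).symm
    have h2 : ∀ x, quadraticChar (ZMod p) (g (-x)) = - quadraticChar (ZMod p) (g x) := by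
      intro x
      have e : g (-x) = -1 * g x := by
        rw [hg]
        ring
      rw [e, map_mul]
      have h3 : quadraticChar (ZMod p) (-1) = -1 := by
        rw [quadraticChar_neg_one_iff_not_isSquare, ZMod.exists_sq_eq_neg_one_iff]
        omega
      rw [h3]
      ring
    simp only [h2, Finset.sum_neg_distrib] at h1
    linarith
  have e4 : ((∑ x : ZMod p, Nat.card {y : ZMod p // y ^ 2 = g x} : ℕ) : ℤ) = p := by
    push_cast
    simp only [e2]
    rw [Finset.sum_add_distrib, e3, zero_add, Finset.sum_const, Finset.card_univ, ZMod.card]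
    simp
  rw [e1]
  exact_mod_cast e4

theorem cnt : Pool.Agent.H925R3.DC.CNT := by
  intro p a b hp h12 hab
  haveI : Fact p.Prime := ⟨hp⟩
  have h3 : 3 ∣ p + 1 := Dvd.dvd.trans (by norm_num) h12
  have h4 : 4 ∣ p + 1 := Dvd.dvd.trans (by norm_num) h12
  rcases mul_eq_zero.1 hab with rfl | rfl
  · have h := cnt_a (p := p) h3 (b : ZMod p)
    simpa using h
  · have h := cnt_b (p := p) h4 (a : ZMod p)
    simpa using h

end Pool.Agent.H35R6.DCCNT
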